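import Pool.Agent.Lib_helper85.VM.Defs

/-!
# MP_5582d1_ag: curve level, definitions
-/

set_option autoImplicit false

namespace Pool.Agent.VM

open scoped Classical

attribute [-instance] Subtype.instDecidableEq

noncomputable section

/-- the subfield generated by `Kb` and the coordinates of `e` -/
def fe {Λ : Type} [Field Λ] (Kb : Subfield Λ) (e : Pt E2 Λ) : Subfield Λ :=
  Subfield.closure ((Kb : Set Λ) ∪ cs e)

/-- the inclusion of the points over a subfield -/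
def inc {Λ : Type} [Field Λ] (Kb : Subfield Λ) : Pt E2 Kb →+ Pt E2 Λ :=
  mp (P := ℤ) Kb.subtype.toIntAlgHom

/-- `u` induces on `Kb(e)` the normalised valuation with centre `a` -/
structure AtPt {Λ : Type} [Field Λ] (Kb : Subfield Λ) (e : Pt E2 Λ) (a : Pt E2 Kb) (u : QV Λ) : Prop where
  triv : ∀ c ∈ Kb, c ≠ 0 → u.v c = 0
  ctr : a ≠ 0 → 0 < u.v (xc e - xc (inc Kb a)) ∧ 0 < u.v (yc e - yc (inc Kb a))
  ctr0 : a = 0 → u.v (xc e) < 0
  int : ∀ H ∈ fe Kb e, H ≠ 0 → ∃ n : ℤ, u.v H = n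
  unif : ∃ H ∈ fe Kb e, H ≠ 0 ∧ u.v H = 1

/-- `red` is the reduction of points of `E₂` with respect to `w` -/
structure IsRed {Λ : Type} [Field Λ] (w : QV Λ) (red : Pt E2 Λ →+ Pt E2 w.κ) : Prop where
  fin : ∀ P, P ≠ 0 → xc P ∈ w.ring → red P ≠ 0 ∧ xc (red P) = w.res (xc P) ∧ yc (red P) = w.res (yc P)
  inf : ∀ P, xc P ∉ w.ring → red P = 0

end

end Pool.Agent.VM
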