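import Pool.Agent.Lib_helper4.VM.IDefs

/-!
# MP_5582d1_ag: very moving cycles which are not big, definitions
-/

set_option autoImplicit false

namespace Pool.Agent.VM

open scoped Classical

noncomputable section

/-! ## Curves and points -/

/-- the curve `y² = x³ + a x² + b` -/
def SW {R : Type*} [CommRing R] (a b : R) : WeierstrassCurve R := ⟨0, a, 0, 0, b⟩

/-- the points of `W` over the field `F` -/
abbrev Pt {R : Type*} [CommRing R] (W : WeierstrassCurve R) (F : Type*) [Field F] [Algebra R F] : Type _ :=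
  (W.baseChange F).toAffine.Point

/-- `E₁ : y² = x³ + x² + l` -/
abbrev E1 {P : Type*} [CommRing P] (l : P) : WeierstrassCurve P := SW 1 l

/-- `E₂ : y² = x³ + 1` -/
abbrev E2 : WeierstrassCurve ℤ := SW 0 1

section
variable {R : Type*} [CommRing R] {W : WeierstrassCurve R} {F : Type*} [Field F] [Algebra R F]

/-- the `x`-coordinate (`0` at infinity) -/
def xc : Pt W F → F
  | .zero => 0
  | .some x _ _ => x

/-- the `y`-coordinate (`0` at infinity) -/
def yc : Pt W F → F
  | .zero => 0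
  | .some _ y _ => y

/-- the coordinates of a point -/
def cs (P : Pt W F) : Set F := {xc P, yc P}

/-- `∑ aᵢ Pᵢ` -/
def comb (a : Fin 3 → ℤ) (P : Fin 3 → Pt W F) : Pt W F := ∑ i, a i • P i

end

/-- the image of a point under a homomorphism of fields over `P` -/
def mp {R P F K : Type*} [CommRing R] [CommRing P] [Field F] [Field K] [Algebra R P] [Algebra R F]
    [Algebra R K] [Algebra P F] [Algebra P K] [IsScalarTower R P F] [IsScalarTower R P K]
    {W : WeierstrassCurve R} (f : F →ₐ[P] K) : Pt W F →+ Pt W K :=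
  WeierstrassCurve.Affine.Point.map f

/-- the degree of `M` over the subfield generated by `S` over `P` (`0` if infinite) -/
def dg (P : Type*) {M : Type*} [Field P] [Field M] [Algebra P M] (S : Set M) : ℕ :=
  Module.finrank (IntermediateField.adjoin P S) M

/-! ## Subvarieties of `E₁³ × E₂³` of dimension 3 as generic points -/

/-- an irreducible subvariety of dimension 3 of `E₁³ × E₂³` over `P`, given by its generic point -/
structure SubVar {P : Type} [Field P] (l : P) where
  /-- the function field -/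
  M : Type
  [fld : Field M]
  [alg : Algebra P M]
  /-- the generic point -/
  z : Fin 3 → Pt (E1 l) M
  /-- the generic point -/
  w : Fin 3 → Pt E2 M
  gen : IntermediateField.adjoin P ((⋃ i, cs (z i)) ∪ ⋃ i, cs (w i)) = ⊤
  dim3 : Algebra.trdeg P M = 3

attribute [instance] SubVar.fld SubVar.alg

/-- the degree of `Z → E₁ × E₂ × E₂, (z,w) ↦ (a·z, m·w, m'·w)` -/
def SubVar.G {P : Type} [Field P] {l : P} (Z : SubVar l) (a m m' : Fin 3 → ℤ) : ℕ :=
  dg P (cs (comb a Z.z) ∪ cs (comb m Z.w) ∪ cs (comb m' Z.w))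

/-! ## Local heights -/

/-- local height for good reduction -/
def lam {R : Type*} [CommRing R] {W : WeierstrassCurve R} {F : Type*} [Field F] [Algebra R F]
    (u : QV F) (P : Pt W F) : ℚ := if xc P = 0 then 0 else max 0 (-(u.v (xc P))) / 2

/-- the second component of the local height for the rank 2 valuation, `v(l) = 1` -/
def Tf {R : Type*} [CommRing R] {W : WeierstrassCurve R} {F : Type*} [Field F] [Algebra R F]
    (v : Rk2 F) (P : Pt W F) : ℚ :=
  if xc P = 0 then 0 else (max 0 (min (v.v (xc P)) (1 / 2)) - 1 / 2) * v.o (xc P)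

/-- the error function -/
def phi {R : Type*} [CommRing R] {W : WeierstrassCurve R} {F : Type*} [Field F] [Algebra R F]
    (v : Rk2 F) (P : Pt W F) : ℚ :=
  if xc P ≠ 0 ∧ 0 < v.v (xc P) ∧ v.v (xc P) < 1 / 2 then |v.o (xc P)| else 0

/-! ## Forms -/

/-- the parallelogram law -/
def Par (f : (Fin 3 → ℤ) → ℚ) : Prop := ∀ a b, f (a + b) + f (a - b) = 2 * f a + 2 * f b

/-- the functional `104 F` -/
def FF (G : (Fin 3 → ℤ) → (Fin 3 → ℤ) → ℚ) : ℚ :=
  72 * (G ![1, 0, 0] ![1, 0, 0] + G ![0, 1, 0] ![0, 1, 0] + G ![0, 0, 1] ![0, 0, 1])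
  + 8 * (G ![0, 1, 0] ![1, 0, 0] + G ![0, 0, 1] ![0, 1, 0] + G ![1, 0, 0] ![0, 0, 1])
  + 128 * (G ![0, 0, 1] ![1, 0, 0] + G ![1, 0, 0] ![0, 1, 0] + G ![0, 1, 0] ![0, 0, 1])
  - 13 * (G ![1, 1, 0] ![1, 1, 0] - G ![1, -1, 0] ![1, 1, 0] - G ![1, 1, 0] ![1, -1, 0]
      + G ![1, -1, 0] ![1, -1, 0])
  - 13 * (G ![0, 1, 1] ![0, 1, 1] - G ![0, 1, -1] ![0, 1, 1] - G ![0, 1, 1] ![0, 1, -1]
      + G ![0, 1, -1] ![0, 1, -1])
  - 13 * (G ![1, 0, 1] ![1, 0, 1] - G ![1, 0, -1] ![1, 0, 1] - G ![1, 0, 1] ![1, 0, -1]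
      + G ![1, 0, -1] ![1, 0, -1])

end

end Pool.Agent.VM
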